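import Pool.Agent.helper7.ZD.Spec

/-!
# Row ZGD of project ZD (MP_baa4d7_al)
-/

set_option autoImplicit false

namespace Pool.Agent.ND.NY

open Pool.Agent.helper58.DC Pool.Agent.DI Pool.Agent.GR Pool.Agent.OB Pool.Agent.DR Pool.Agent.FI Pool.Agent.FI3 Pool.Agent.FI4 Pool.Agent.FI4I Pool.Agent.LE Pool.Agent.L5 Pool.Agent.NAB
open Pool.Agent.ZB (Pm Om KZ EQ BQ lQ MZc BDK)

theorem ZGD_idx {p a : ℕ} (hp : p.Prime) {G : Type} [Group G] [Finite G] (hG : IsPGroup p G) (Z : Subgroup G)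
    (hz : ∀ z ∈ Z, ∀ d : G, z * d = d * z) (hc : Nat.card G ≤ p ^ a * Nat.card Z) :
    (∀ u : G, u ^ p ^ a ∈ Z) ∧
    (∀ n : ℕ, a ≤ n → ∀ u v : G, (u * v) ^ p ^ n = u ^ p ^ n * v ^ p ^ n) := by
  haveI := Fact.mk hp
  have hnorm : Z.Normal := by
    refine ⟨fun x hx g => ?_⟩
    rw [← hz x hx g, mul_inv_cancel_right]
    exact hx
  obtain ⟨b, hb⟩ := hG.exists_card_eq
  have hle : Z ≤ Subgroup.center G := by
    intro x hx
    exact Subgroup.mem_center_iff.2 (fun g => (hz x hx g).symm)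
  have hci := Subgroup.card_mul_index Z
  obtain ⟨j, hj1, hj⟩ := (Nat.dvd_prime_pow hp).1 (show Z.index ∣ p ^ b from hb ▸ Dvd.intro_left _ hci)
  have hjm : j ≤ a := by
    rw [hj] at hci
    rw [← hci, mul_comm] at hc
    have h2 : p ^ j ≤ p ^ a := Nat.le_of_mul_le_mul_right hc Nat.card_pos
    exact (Nat.pow_le_pow_iff_right hp.one_lt).1 h2
  obtain ⟨i, hi1, hi⟩ := (Nat.dvd_prime_pow hp).1 (show (Subgroup.center G).index ∣ p ^ j from hj ▸ Subgroup.index_dvd_of_le hle)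
  refine ⟨?_, ?_⟩
  · intro u
    have h1 : u ^ p ^ j ∈ Z := by
      rw [← hj]
      exact Subgroup.pow_index_mem Z u
    have h2 : u ^ p ^ a = (u ^ p ^ j) ^ p ^ (a - j) := by
      rw [← pow_mul, ← pow_add]
      congr 2
      omega
    rw [h2]
    exact Subgroup.pow_mem _ h1 _
  · intro n hn u v
    have key : ∀ w : G, w ^ p ^ n = (w ^ p ^ i) ^ p ^ (n - i) := by
      intro w
      rw [← pow_mul, ← pow_add]
      congr 2
      omega
    have hap : ∀ w : G, ((MonoidHom.transferCenterPow G w : Subgroup.center G) : G) = w ^ p ^ i := by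
      intro w
      rw [MonoidHom.transferCenterPow_apply, hi]
    rw [key, key, key, ← hap, ← hap, ← hap, map_mul, Subgroup.coe_mul]
    have hcm : Commute ((MonoidHom.transferCenterPow G u : Subgroup.center G) : G) ((MonoidHom.transferCenterPow G v : Subgroup.center G) : G) :=
      (Subgroup.mem_center_iff.1 (MonoidHom.transferCenterPow G v).2 _)
    exact hcm.mul_pow _

open Classical in
theorem ZGD_cnt {p : ℕ} {G : Type} [Group G] [Finite G] (V : Subgroup G) (hV : ∀ x ∈ V, ∀ y ∈ V, x * y = y * x)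
    (h1 : {y | y ∈ V ∧ y ^ p = 1}.ncard ≤ p) : ∀ i : ℕ, {y | y ∈ V ∧ y ^ p ^ i = 1}.ncard ≤ p ^ i := by
  intro i
  induction i with
  | zero =>
    have : {y | y ∈ V ∧ y ^ p ^ 0 = 1} = {(1 : G)} := by
      ext y
      simp only [pow_zero, pow_one, Set.mem_setOf_eq, Set.mem_singleton_iff]
      exact ⟨fun h => h.2, fun h => by rw [h]; exact ⟨V.one_mem, rfl⟩⟩
    rw [this, Set.ncard_singleton, pow_zero]
  | succ i ih =>
    haveI := Fintype.ofFinite G
    have hS : ∀ q : ℕ, {y | y ∈ V ∧ y ^ q = 1}.ncard = (Finset.univ.filter fun y : G => y ∈ V ∧ y ^ q = 1).card := by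
      intro q
      rw [← Set.ncard_coe_finset]
      congr 1
      ext y
      simp
    rw [hS] at h1 ih ⊢
    have h2 := Finset.card_le_mul_card_image (f := fun y : G => y ^ p) (Finset.univ.filter fun y : G => y ∈ V ∧ y ^ p ^ (i + 1) = 1) p
      (by
        intro a ha
        obtain ⟨y0, hy0, rfl⟩ := Finset.mem_image.1 ha
        rw [Finset.mem_filter] at hy0
        refine le_trans ?_ h1
        refine Finset.card_le_card_of_injOn (fun y => y0⁻¹ * y) ?_ ?_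
        · intro y hy
          simp only [Finset.coe_filter, Finset.mem_filter, Finset.mem_univ, true_and, Set.mem_setOf_eq] at hy ⊢
          have hcm : Commute y0⁻¹ y := Commute.inv_left (hV y0 hy0.2.1 y hy.1.1)
          refine ⟨V.mul_mem (V.inv_mem hy0.2.1) hy.1.1, ?_⟩
          rw [hcm.mul_pow, hy.2, inv_pow, inv_mul_cancel]
        · intro y _ y' _ h
          exact mul_left_cancel h)
    refine h2.trans ?_
    rw [pow_succ, mul_comm]
    refine Nat.mul_le_mul_right p (le_trans (Finset.card_le_card ?_) ih)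
    intro a ha
    obtain ⟨y, hy, rfl⟩ := Finset.mem_image.1 ha
    rw [Finset.mem_filter] at hy ⊢
    refine ⟨Finset.mem_univ _, V.pow_mem hy.2.1 _, ?_⟩
    rw [← pow_mul, mul_comm, ← pow_succ]
    exact hy.2.2

theorem ZGD (hZGP : ZGP_stmt) : ZGD_stmt := by
  intro p e m hp hem G _ _ D hD hKY z hzD hzc ho
  obtain ⟨has, hse, hk, _, Z₀, hZD, hZc, hcard, _, hOm, _, hexp, z₁, hz₁, ho₁⟩ := hKY
  -- the index of the central subgroup
  have hidx := ZGD_idx (a := m.a) hp hD (Z₀.subgroupOf D)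
    (fun x hx d => Subtype.ext (hZc x.1 (Subgroup.mem_subgroupOf.1 hx) d.1 d.2))
    (by
      have h : Nat.card (Z₀.subgroupOf D) = Nat.card Z₀ := Nat.card_congr (Subgroup.subgroupOfEquivOfLe hZD).toEquiv
      rw [h]
      exact hcard)
  have hA0 : ∀ u ∈ D, u ^ p ^ m.a ∈ Z₀ := by
    intro u hu
    have h := Subgroup.mem_subgroupOf.1 (hidx.1 ⟨u, hu⟩)
    simpa using h
  have hB : ∀ u ∈ D, ∀ v ∈ D, (u * v) ^ p ^ (e - 3) = u ^ p ^ (e - 3) * v ^ p ^ (e - 3) := by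
    intro u hu v hv
    have := congrArg Subtype.val (hidx.2 (e - 3) (by omega) ⟨u, hu⟩ ⟨v, hv⟩)
    simpa using this
  have hpel : ∀ u ∈ D, PEl p u := by
    intro u hu
    obtain ⟨k, hk⟩ := hD ⟨u, hu⟩
    refine ⟨k, ?_⟩
    have := congrArg Subtype.val hk
    simpa using this
  -- the group V
  have hcm : ∀ x ∈ Z₀, ∀ y ∈ Z₀, Commute x y := fun x hx y hy => hZc x hx y (hZD hy)
  let V : Subgroup G :=
    { carrier := {y | ∃ v ∈ Z₀, v ^ p ^ (m.s - m.a) = y}
      mul_mem' := by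
        rintro _ _ ⟨v, hv, rfl⟩ ⟨w, hw, rfl⟩
        exact ⟨v * w, Z₀.mul_mem hv hw, (hcm v hv w hw).mul_pow _⟩
      one_mem' := ⟨1, Z₀.one_mem, one_pow _⟩
      inv_mem' := by
        rintro _ ⟨v, hv, rfl⟩
        exact ⟨v⁻¹, Z₀.inv_mem hv, inv_pow _ _⟩ }
  have hVm : ∀ y : G, y ∈ V ↔ ∃ v ∈ Z₀, v ^ p ^ (m.s - m.a) = y := fun y => Iff.rfl
  have hVZ : ∀ y ∈ V, y ∈ Z₀ := by
    intro y hy
    obtain ⟨v, hv, rfl⟩ := (hVm y).1 hy
    exact Z₀.pow_mem hv _
  have hcnt := ZGD_cnt (p := p) V (fun x hx y hy => hcm x (hVZ x hx) y (hVZ y hy))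
    (by
      have h : {y | y ∈ V ∧ y ^ p = 1} = Om p (m.s - m.a) Z₀ := by
        ext y
        exact and_comm
      rw [h, hOm, hk, pow_one]) (e - (m.s - m.a))
  have hVe : ∀ y ∈ V, y ^ p ^ (e - (m.s - m.a)) = 1 := by
    intro y hy
    obtain ⟨v, hv, rfl⟩ := (hVm y).1 hy
    rw [← pow_mul, ← pow_add]
    have h : m.s - m.a + (e - (m.s - m.a)) = e := by omega
    rw [h]
    exact hexp v hv
  set g : G := z₁ ^ p ^ (m.s - m.a) with hg
  have hgV : g ∈ V := (hVm g).2 ⟨z₁, hz₁, rfl⟩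
  have hgo : orderOf g = p ^ (e - (m.s - m.a)) := by
    rw [hg, orderOf_pow_of_dvd (pow_ne_zero _ hp.ne_zero) (by rw [ho₁]; exact pow_dvd_pow _ (by omega)), ho₁,
      Nat.pow_div (by omega) hp.pos]
  have hVg : Subgroup.zpowers g = V := by
    refine Subgroup.eq_of_le_of_card_ge (by rw [Subgroup.zpowers_le]; exact hgV) ?_
    rw [Nat.card_zpowers, hgo]
    refine le_trans (le_of_eq ?_) hcnt
    have h : {y | y ∈ V ∧ y ^ p ^ (e - (m.s - m.a)) = 1} = (V : Set G) := by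
      ext y
      exact ⟨fun h => h.1, fun h => ⟨h, hVe y h⟩⟩
    rw [h]
    rfl
  have hA : ∀ u ∈ D, u ^ p ^ m.s ∈ Subgroup.zpowers g := by
    intro u hu
    rw [hVg]
    refine (hVm _).2 ⟨u ^ p ^ m.a, hA0 u hu, ?_⟩
    rw [← pow_mul, ← pow_add]
    congr 2
    omega
  -- the groups `Zg w`
  have hZw : ∀ w ∈ D, Zg p e m.a w ≤ Subgroup.zpowers g := by
    intro w hw
    unfold Zg
    rw [Subgroup.zpowers_le]
    have h2 : w ^ p ^ (e - (m.a + 3)) = (w ^ p ^ m.s) ^ p ^ (e - (m.a + 3) - m.s) := by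
      rw [← pow_mul, ← pow_add]
      congr 2
      omega
    rw [h2]
    exact Subgroup.pow_mem _ (hA w hw) _
  obtain ⟨_, _, ⟨hcz, _⟩, _, _, _, _, h8⟩ := hZGP p e m.a hp (by omega) G z (hpel z hzD) ho
  have hgz : Subgroup.zpowers (g ^ p ^ (e - 3 - m.s)) = Zg p e m.a z := by
    refine h8 _ _ g (by rw [Subgroup.zpowers_le]; exact Subgroup.pow_mem _ (Subgroup.mem_zpowers g) _) (hZw z hzD) ?_
    rw [hcz, Nat.card_zpowers, orderOf_pow_of_dvd (pow_ne_zero _ hp.ne_zero) (by rw [hgo]; exact pow_dvd_pow _ (by omega)), hgo,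
      Nat.pow_div (by omega) hp.pos]
    congr 1
    omega
  refine ⟨?_, ?_, hB, ?_⟩
  · intro w hw how
    obtain ⟨_, _, ⟨hcw, _⟩, _⟩ := hZGP p e m.a hp (by omega) G w (hpel w hw) how
    exact h8 _ _ g (hZw w hw) (hZw z hzD) (hcw.trans hcz.symm)
  · intro u hu
    obtain ⟨k, hk⟩ := Subgroup.mem_zpowers_iff.1 (hA u hu)
    have h2 : u ^ p ^ (e - 3) = (u ^ p ^ m.s) ^ p ^ (e - 3 - m.s) := by
      rw [← pow_mul, ← pow_add]
      congr 2
      omega
    rw [h2, ← hk, ← hgz]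
    refine Subgroup.mem_zpowers_iff.2 ⟨k, ?_⟩
    rw [← zpow_natCast (g ^ k), ← zpow_natCast g, ← zpow_mul, ← zpow_mul, mul_comm]
  · intro u hu hnle
    have hyp : PEl p (u ^ p ^ m.s) := hpel _ (Subgroup.pow_mem _ hu _)
    obtain ⟨l, hl⟩ := hyp
    obtain ⟨j, _, hj⟩ := (Nat.dvd_prime_pow hp).1 (orderOf_dvd_of_pow_eq_one hl)
    have hj2 : j ≤ m.a + 2 := by
      by_contra hcon
      push Not at hcon
      apply hnle
      have hoy : orderOf ((u ^ p ^ m.s) ^ p ^ (j - (m.a + 3))) = p ^ (m.a + 3) := by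
        rw [orderOf_pow_of_dvd (pow_ne_zero _ hp.ne_zero) (by rw [hj]; exact pow_dvd_pow _ (by omega)), hj,
          Nat.pow_div (by omega) hp.pos]
        congr 1
        omega
      have heq := h8 (Subgroup.zpowers ((u ^ p ^ m.s) ^ p ^ (j - (m.a + 3)))) (Zg p e m.a z) g
        (by
          rw [Subgroup.zpowers_le]
          exact Subgroup.pow_mem _ (hA u hu) _) (hZw z hzD)
        (by rw [Nat.card_zpowers, hoy, hcz])
      rw [← heq, Subgroup.zpowers_le]
      exact Subgroup.pow_mem _ (Subgroup.pow_mem _ (Subgroup.mem_zpowers u) _) _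
    have h1 : (u ^ p ^ m.s) ^ p ^ j = 1 := by
      rw [← hj]
      exact pow_orderOf_eq_one _
    have h2 : u ^ p ^ (e - 3) = ((u ^ p ^ m.s) ^ p ^ j) ^ p ^ (e - 3 - m.s - j) := by
      rw [← pow_mul, ← pow_mul, ← pow_add, ← pow_add]
      congr 2
      omega
    rw [h2, h1, one_pow]


end Pool.Agent.ND.NY
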